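import Pool.Agent.Helper36.Leh.Kernel

/-!
# Algebraic power series over `𝔽_p` have finite `p`-kernel (uniformly)
-/

set_option linter.unusedSectionVars false

open Polynomial Finset

namespace Pool.Agent.Helper36.Leh

variable {p : ℕ} [Fact p.Prime]

/-- sections of power series -/
noncomputable def secS (r : ℕ) (H : PowerSeries (ZMod p)) : PowerSeries (ZMod p) :=
  PowerSeries.mk fun n => PowerSeries.coeff (p * n + r) H

theorem coeff_secS (r n : ℕ) (H : PowerSeries (ZMod p)) :
    PowerSeries.coeff n (secS r H) = PowerSeries.coeff (p * n + r) H := by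
  rw [secS, PowerSeries.coeff_mk]

/-- sections of polynomials -/
noncomputable def secP (r : ℕ) (Q : (ZMod p)[X]) : (ZMod p)[X] :=
  ∑ n ∈ range (Q.natDegree + 1), monomial n (Q.coeff (p * n + r))

theorem coeff_secP (r n : ℕ) (Q : (ZMod p)[X]) : (secP r Q).coeff n = Q.coeff (p * n + r) := by
  have hp0 : 0 < p := (Fact.out : p.Prime).pos
  simp only [secP, coeff_monomial, sum_ite_eq', finsetSum_coeff, mem_range]
  split_ifs with h
  · rfl
  · rw [coeff_eq_zero_of_natDegree_lt]
    have h1 : n ≤ p * n := Nat.le_mul_of_pos_left n hp0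
    omega

theorem coe_secP (r : ℕ) (Q : (ZMod p)[X]) :
    ((secP r Q : (ZMod p)[X]) : PowerSeries (ZMod p)) = secS r (Q : PowerSeries (ZMod p)) := by
  ext n
  rw [coeff_secS, Polynomial.coeff_coe, Polynomial.coeff_coe, coeff_secP]

theorem natDegree_secP (r d : ℕ) (Q : (ZMod p)[X]) (h : Q.natDegree ≤ p * d) :
    (secP r Q).natDegree ≤ d := by
  have hp0 : 0 < p := (Fact.out : p.Prime).pos
  rw [natDegree_le_iff_coeff_eq_zero]
  intro n hn
  rw [coeff_secP, coeff_eq_zero_of_natDegree_lt]
  have h1 : p * d < p * n := Nat.mul_lt_mul_of_pos_left hn hp0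
  omega

theorem pow_eq_expand (H : PowerSeries (ZMod p)) :
    H^p = PowerSeries.expand p (Fact.out : p.Prime).ne_zero H := by
  have h := MvPowerSeries.map_frobenius_expand (R := ZMod p) (σ := Unit) p
    (Fact.out : p.Prime).ne_zero (f := H)
  rw [ZMod.frobenius_zmod] at h
  rw [PowerSeries.expand]
  have h2 : ∀ G : MvPowerSeries Unit (ZMod p), MvPowerSeries.map (RingHom.id (ZMod p)) G = G := by
    intro G
    ext n
    simp
  rw [h2] at h
  exact h.symm

theorem secS_mul_pow (r : ℕ) (hr : r < p) (H G : PowerSeries (ZMod p)) :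
    secS r (H * G^p) = secS r H * G := by
  have hp0 : 0 < p := (Fact.out : p.Prime).pos
  rw [pow_eq_expand]
  ext n
  rw [coeff_secS, PowerSeries.coeff_mul, PowerSeries.coeff_mul]
  symm
  refine Finset.sum_of_injOn (fun x : ℕ × ℕ => (p * x.1 + r, p * x.2)) ?_ ?_ ?_ ?_
  · intro x _ y _ hxy
    simp only [Prod.mk.injEq] at hxy
    refine Prod.ext ?_ ?_
    · exact Nat.eq_of_mul_eq_mul_left hp0 (by omega)
    · exact Nat.eq_of_mul_eq_mul_left hp0 (by omega)
  · intro x hx
    simp only [Finset.mem_coe, HasAntidiagonal.mem_antidiagonal] at hx ⊢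
    rw [← hx]; ring
  · intro x hx hnot
    rw [PowerSeries.coeff_expand]
    split_ifs with h
    · exfalso
      apply hnot
      obtain ⟨y, hy⟩ := h
      rw [HasAntidiagonal.mem_antidiagonal] at hx
      have h1 : (x.1 - r) % p = 0 ∧ r ≤ x.1 := by
        have h2 : x.1 % p = r := by
          have := congrArg (· % p) hx
          simp only [hy] at this
          rw [Nat.add_mul_mod_self_left, Nat.mul_add_mod, Nat.mod_eq_of_lt hr] at this
          exact this
        have h3 : r ≤ x.1 := by rw [← h2]; exact Nat.mod_le _ _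
        exact ⟨by rw [← h2]; exact Nat.sub_mod_eq_zero_of_mod_eq (by simp), h3⟩
      obtain ⟨z, hz⟩ := Nat.dvd_of_mod_eq_zero h1.1
      have h4 : x.1 = p * z + r := by omega
      simp only [Set.mem_image, Finset.mem_coe, HasAntidiagonal.mem_antidiagonal]
      refine ⟨(z, y), ?_, ?_⟩
      · have h5 : p * (z + y) = p * n := by
          rw [mul_add]; omega
        exact Nat.eq_of_mul_eq_mul_left hp0 h5
      · exact Prod.ext h4.symm hy.symm
    · rw [mul_zero]
  · intro x _
    rw [coeff_secS, PowerSeries.coeff_expand_mul]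

theorem secS_sum {τ : Type*} (r : ℕ) (s : Finset τ) (f : τ → PowerSeries (ZMod p)) :
    secS r (∑ i ∈ s, f i) = ∑ i ∈ s, secS r (f i) := by
  ext n
  rw [coeff_secS, map_sum, map_sum]
  exact Finset.sum_congr rfl fun i _ => by rw [coeff_secS]

/-- existence of an Ore type relation -/
theorem ore_weak (A : PowerSeries (ZMod p)) (hA : IsAlgebraic (ZMod p)[X] A) :
    ∃ (m n : ℕ) (Q : ℕ → (ZMod p)[X]), n < m ∧ Q n ≠ 0 ∧ (∀ i < n, Q i = 0) ∧
      ∑ i ∈ range m, (Q i : PowerSeries (ZMod p)) * A^(p^i) = 0 := by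
  classical
  obtain ⟨y, hy0, hint⟩ := hA.exists_integral_multiple
  set B := y • A with hB
  have hfg := hint.fg_adjoin_singleton
  set N := Subalgebra.toSubmodule (Algebra.adjoin (ZMod p)[X] {B}) with hN
  have hNoeth : IsNoetherian (ZMod p)[X] N := isNoetherian_of_fg_of_noetherian N hfg
  have hmem : ∀ i, B^(p^i) ∈ N := fun i =>
    Subalgebra.pow_mem _ (Algebra.self_mem_adjoin_singleton _ _) _
  have hnot : ¬ LinearIndependent (ZMod p)[X] (fun i : ℕ => (⟨B^(p^i), hmem i⟩ : N)) := by
    intro h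
    have := h.finite_of_isNoetherian
    exact not_finite ℕ
  rw [not_linearIndependent_iff] at hnot
  obtain ⟨t, g, hg, i0, hi0, hgi0⟩ := hnot
  set Q : ℕ → (ZMod p)[X] := fun i => if i ∈ t then g i * y^(p^i) else 0 with hQ
  have hex : ∃ n, Q n ≠ 0 := ⟨i0, by
    simp only [hQ, if_pos hi0]
    exact mul_ne_zero hgi0 (pow_ne_zero _ hy0)⟩
  refine ⟨t.sup id + 1, Nat.find hex, Q, ?_, Nat.find_spec hex, ?_, ?_⟩
  · have h1 : Nat.find hex ∈ t := by
      by_contra hcon
      have := Nat.find_spec hex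
      simp only [hQ, if_neg hcon] at this
      exact this rfl
    have : Nat.find hex ≤ t.sup id := Finset.le_sup (f := id) h1
    omega
  · intro i hi
    have := Nat.find_min hex hi
    push Not at this
    exact this
  · have h1 : (∑ i ∈ t, g i • B^(p^i)) = 0 := by
      have := congrArg (Subtype.val) hg
      simpa using this
    have hsub : t ⊆ range (t.sup id + 1) := by
      intro i hi
      rw [Finset.mem_range]
      have : i ≤ t.sup id := Finset.le_sup (f := id) hi
      omega
    rw [← Finset.sum_subset hsub]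
    · rw [← h1]
      refine Finset.sum_congr rfl fun i hi => ?_
      simp only [hQ, if_pos hi, hB]
      rw [_root_.smul_pow, smul_smul, Algebra.smul_def]
      rfl
    · intro i _ hi
      simp [hQ, hi]

theorem ore (A : PowerSeries (ZMod p)) (hA : IsAlgebraic (ZMod p)[X] A) :
    ∃ (m : ℕ) (Q : ℕ → (ZMod p)[X]), 0 < m ∧ Q 0 ≠ 0 ∧
      ∑ i ∈ range m, (Q i : PowerSeries (ZMod p)) * A^(p^i) = 0 := by
  classical
  have hp0 : 0 < p := (Fact.out : p.Prime).pos
  obtain ⟨m, n, Q, hnm, h1, h2, h3⟩ := ore_weak A hA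
  induction n generalizing m Q with
  | zero => exact ⟨m, Q, hnm, h1, h3⟩
  | succ n ih =>
    obtain ⟨l, hl⟩ : ∃ l, (Q (n+1)).coeff l ≠ 0 := by
      by_contra hcon
      push Not at hcon
      exact h1 (Polynomial.ext (by simpa using hcon))
    have hr : l % p < p := Nat.mod_lt _ hp0
    refine ih (m-1) (fun i => secP (l % p) (Q (i+1))) (by omega) ?_ ?_ ?_
    · intro h0
      have := congrArg (fun P => P.coeff (l / p)) h0
      simp only [coeff_secP, coeff_zero, Nat.div_add_mod] at this
      exact hl this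
    · intro i hi
      rw [h2 (i+1) (by omega)]
      ext n
      rw [coeff_secP]
      simp
    · rcases m with _ | m
      · simp
      · rw [Finset.sum_range_succ', h2 0 (by omega)] at h3
        simp only [Polynomial.coe_zero, zero_mul, add_zero] at h3
        rw [Nat.add_sub_cancel]
        have h4 := congrArg (secS (l % p)) h3
        rw [secS_sum] at h4
        have h5 : secS (l % p) (0 : PowerSeries (ZMod p)) = 0 := by
          ext n; rw [coeff_secS]; simp
        rw [h5] at h4
        rw [← h4]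
        refine Finset.sum_congr rfl fun i _ => ?_
        rw [pow_succ, pow_mul, secS_mul_pow _ hr, coe_secP]

theorem finite_natDegree_le (q : ℕ) : {P : (ZMod p)[X] | P.natDegree ≤ q}.Finite := by
  let π : (ZMod p)[X] → Fin (q + 1) → ZMod p := fun f i => f.coeff i
  refine Set.Finite.of_finite_image (f := π) (Set.toFinite _) ?_
  refine fun x hx y hy hxy => (ext_iff_natDegree_le hx hy).2 fun i hi => ?_
  exact congr_fun hxy ⟨i, Nat.lt_succ_of_le hi⟩

/-- an algebraic power series lies in a finite set stable under sections -/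
theorem exists_stable (A : PowerSeries (ZMod p)) (hA : IsAlgebraic (ZMod p)[X] A) :
    ∃ 𝓗 : Set (PowerSeries (ZMod p)), 𝓗.Finite ∧ A ∈ 𝓗 ∧
      ∀ H ∈ 𝓗, ∀ r < p, secS r H ∈ 𝓗 := by
  classical
  have hp : p.Prime := Fact.out
  have hp0 : 0 < p := hp.pos
  obtain ⟨m, Q, hm, hQ0, hrel⟩ := ore A hA
  obtain ⟨m, rfl⟩ : ∃ m', m = m' + 1 := ⟨m-1, by omega⟩
  obtain ⟨q, hq⟩ : ∃ q, ∀ i < m + 1, (Q i).natDegree ≤ q := by
    refine ⟨(range (m+1)).sup (fun i => (Q i).natDegree), fun i hi => ?_⟩
    exact Finset.le_sup (f := fun i => (Q i).natDegree) (Finset.mem_range.2 hi)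
  set V : Set (PowerSeries (ZMod p)) := (fun c : Fin (m+1) → (ZMod p)[X] =>
    ∑ i, (c i : PowerSeries (ZMod p)) * A^(p^(i:ℕ))) '' {c | ∀ i, (c i).natDegree ≤ q} with hV
  have hVfin : V.Finite := by
    apply Set.Finite.image
    have := Set.Finite.pi (fun _ : Fin (m+1) => finite_natDegree_le (p := p) q)
    refine this.subset ?_
    intro c hc i _
    exact hc i
  have hQ0' : (Q 0 : PowerSeries (ZMod p)) ≠ 0 := by
    rwa [Ne, Polynomial.coe_eq_zero_iff]
  refine ⟨{H | (Q 0 : PowerSeries (ZMod p)) * H ∈ V}, ?_, ?_, ?_⟩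
  · exact hVfin.preimage (fun x _ y _ hxy => mul_left_cancel₀ hQ0' hxy)
  · refine ⟨fun i => if i = 0 then Q 0 else 0, ?_, ?_⟩
    · intro i
      simp only
      split_ifs
      · exact hq 0 (by omega)
      · simp
    · simp only
      rw [Finset.sum_eq_single (0 : Fin (m+1))]
      · simp
      · intro b _ hb; simp [hb]
      · intro h; exact absurd (Finset.mem_univ _) h
  · rintro H ⟨c, hc, hcH⟩ r hr
    simp only at hcH
    rw [Fin.sum_univ_succ] at hcH
    rw [Finset.sum_range, Fin.sum_univ_succ] at hrel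
    simp only [Fin.val_zero, pow_zero, pow_one, Fin.val_succ] at hcH hrel
    refine ⟨Fin.snoc (α := fun _ => (ZMod p)[X]) (fun i : Fin m => secP r ((Q 0)^(p-1) * c i.succ -
      (Q 0)^(p-2) * c 0 * Q ((i:ℕ)+1))) 0, ?_, ?_⟩
    · intro i
      refine Fin.lastCases ?_ (fun i => ?_) i
      · simp
      · rw [Fin.snoc_castSucc]
        apply natDegree_secP
        refine (natDegree_sub_le _ _).trans (max_le ?_ ?_)
        · refine natDegree_mul_le.trans ?_
          have h1 : ((Q 0)^(p-1)).natDegree ≤ (p-1) * q :=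
            natDegree_pow_le.trans (Nat.mul_le_mul_left _ (hq 0 (by omega)))
          have h2 := hc i.succ
          calc _ ≤ (p-1) * q + q := add_le_add h1 h2
            _ = ((p-1)+1) * q := by ring
            _ = p * q := by rw [Nat.sub_add_cancel hp.one_le]
        · refine natDegree_mul_le.trans ?_
          have h1 : ((Q 0)^(p-2)).natDegree ≤ (p-2) * q :=
            natDegree_pow_le.trans (Nat.mul_le_mul_left _ (hq 0 (by omega)))
          have h2 := hc 0
          have h3 := hq ((i:ℕ)+1) (by have := i.2; omega)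
          have h4 : ((Q 0)^(p-2) * c 0).natDegree ≤ (p-2) * q + q :=
            natDegree_mul_le.trans (add_le_add h1 h2)
          calc _ ≤ ((p-2) * q + q) + q := add_le_add h4 h3
            _ = ((p-2)+2) * q := by ring
            _ = p * q := by rw [Nat.sub_add_cancel hp.two_le]
    · simp only
      rw [Fin.sum_univ_castSucc]
      simp only [Fin.snoc_castSucc, Fin.snoc_last, Polynomial.coe_zero, zero_mul, add_zero,
        Fin.val_castSucc]
      have h5 : H * (Q 0 : PowerSeries (ZMod p))^p = ∑ i : Fin m,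
          (((Q 0)^(p-1) * c i.succ - (Q 0)^(p-2) * c 0 * Q ((i:ℕ)+1) : (ZMod p)[X]) :
            PowerSeries (ZMod p)) * (A^(p^(i:ℕ)))^p := by
        have h6 : ∀ i : Fin m, (((Q 0)^(p-1) * c i.succ - (Q 0)^(p-2) * c 0 * Q ((i:ℕ)+1) :
            (ZMod p)[X]) : PowerSeries (ZMod p)) * (A^(p^(i:ℕ)))^p =
            (Q 0 : PowerSeries (ZMod p))^(p-1) * ((c i.succ : PowerSeries (ZMod p)) *
              A^(p^((i:ℕ)+1))) - (Q 0 : PowerSeries (ZMod p))^(p-2) *
              (c 0 : PowerSeries (ZMod p)) * ((Q ((i:ℕ)+1) : PowerSeries (ZMod p)) *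
              A^(p^((i:ℕ)+1))) := by
          intro i
          rw [← pow_mul, ← pow_succ]
          push_cast
          ring
        rw [Finset.sum_congr rfl (fun i _ => h6 i), Finset.sum_sub_distrib, ← Finset.mul_sum,
          ← Finset.mul_sum]
        obtain ⟨n, hn⟩ : ∃ n, p = n + 2 := ⟨p-2, by have := hp.two_le; omega⟩
        have e1 : p - 1 = n + 1 := by omega
        have e2 : p - 2 = n := by omega
        have e3 : (Q 0 : PowerSeries (ZMod p))^p = (Q 0 : PowerSeries (ZMod p))^(n+2) :=
          congrArg (fun e => (Q 0 : PowerSeries (ZMod p))^e) hn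
        rw [e1, e2, e3]
        have h7 := hcH
        have h8 := hrel
        generalize (∑ i : Fin m, (c i.succ : PowerSeries (ZMod p)) * A^(p^((i:ℕ)+1))) = X1 at h7 ⊢
        generalize (∑ i : Fin m, (Q ((i:ℕ)+1) : PowerSeries (ZMod p)) * A^(p^((i:ℕ)+1))) = X2
          at h8 ⊢
        linear_combination (-(Q 0 : PowerSeries (ZMod p))^(n+1)) * h7 +
          ((Q 0 : PowerSeries (ZMod p))^n * (c 0 : PowerSeries (ZMod p))) * h8
      have h9 := congrArg (secS r) h5
      rw [secS_mul_pow r hr, secS_sum] at h9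
      rw [mul_comm (Q 0 : PowerSeries (ZMod p)), h9]
      refine Finset.sum_congr rfl fun i _ => ?_
      rw [secS_mul_pow r hr, coe_secP]

/-- the coefficient sequence -/
noncomputable def cf (H : PowerSeries (ZMod p)) : ℕ → ZMod p := fun n => PowerSeries.coeff n H

theorem ker_finite_of_algebraic (A : PowerSeries (ZMod p)) (hA : IsAlgebraic (ZMod p)[X] A) :
    (ker p (cf A)).Finite := by
  have hp0 : 0 < p := (Fact.out : p.Prime).pos
  obtain ⟨𝓗, hfin, hmem, hst⟩ := exists_stable A hA
  have key : ∀ j : ℕ, ∀ H ∈ 𝓗, ∀ r < p^j, (fun n => cf H (p^j * n + r)) ∈ cf '' 𝓗 := by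
    intro j
    induction j with
    | zero =>
      intro H hH r hr
      rw [pow_zero, Nat.lt_one_iff] at hr
      subst hr
      exact ⟨H, hH, by ext n; simp⟩
    | succ j ih =>
      intro H hH r hr
      have h1 : r % p < p := Nat.mod_lt _ hp0
      have h2 : r / p < p^j := by
        rw [Nat.div_lt_iff_lt_mul hp0, ← pow_succ]; exact hr
      have h3 := ih (secS (r % p) H) (hst H hH _ h1) (r / p) h2
      convert h3 using 1
      ext n
      simp only [cf, coeff_secS]
      congr 2
      have h4 := Nat.div_add_mod r p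
      calc p^(j+1) * n + r = p^(j+1) * n + (p * (r / p) + r % p) := by rw [h4]
        _ = p * (p^j * n + r / p) + r % p := by ring
  refine (hfin.image cf).subset ?_
  rintro b ⟨j, r, hr, rfl⟩
  exact key j A hmem r hr

theorem exists_ker_bound (p : ℕ) [Fact p.Prime] (d h : ℕ) :
    ∃ s : ℕ, ∀ (A : PowerSeries (ZMod p)) (P : (ZMod p)[X][X]), P ≠ 0 → P.natDegree ≤ d →
      (∀ i, (P.coeff i).natDegree ≤ h) → aeval A P = 0 →
      (ker p (cf A)).Finite ∧ (ker p (cf A)).ncard ≤ s := by
  classical
  have hfin := Polynomial.bUnion_roots_finite (algebraMap (ZMod p)[X] (PowerSeries (ZMod p))) d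
    (finite_natDegree_le (p := p) h)
  obtain ⟨s, hs⟩ := (hfin.image (fun A => (ker p (cf A)).ncard)).bddAbove
  refine ⟨s, ?_⟩
  intro A P hP hPd hPh hA
  refine ⟨ker_finite_of_algebraic A ⟨P, hP, hA⟩, ?_⟩
  apply hs
  refine ⟨A, ?_, rfl⟩
  simp only [Set.mem_iUnion]
  refine ⟨P, ⟨hPd, hPh⟩, ?_⟩
  have hinj : Function.Injective (algebraMap (ZMod p)[X] (PowerSeries (ZMod p))) := by
    intro a b hab
    exact Polynomial.coe_injective _ hab
  rw [Finset.mem_coe, Multiset.mem_toFinset, mem_roots, IsRoot.def, eval_map_algebraMap]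
  · exact hA
  · exact (Polynomial.map_ne_zero_iff hinj).2 hP

end Pool.Agent.Helper36.Leh
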