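import Mathlib

/-!
# Sparse multiples of linear cocycle products over `𝔽_p`
-/

set_option linter.unusedSectionVars false

open Polynomial Finset

namespace Pool.Agent.Helper36.Leh

variable {p : ℕ} [Fact p.Prime]
variable {ι : Type} [Fintype ι] [DecidableEq ι]

/-- `M(X) M(X^p) ⋯ M(X^{p^{k-1}})` -/
noncomputable def prodM (M : Matrix ι ι (ZMod p)[X]) : ℕ → Matrix ι ι (ZMod p)[X]
  | 0 => 1
  | k+1 => prodM M k * M.map (expand (ZMod p) (p^k))

theorem prodM_zero (M : Matrix ι ι (ZMod p)[X]) : prodM M 0 = 1 := rfl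

theorem prodM_succ (M : Matrix ι ι (ZMod p)[X]) (k : ℕ) :
    prodM M (k+1) = prodM M k * M.map (expand (ZMod p) (p^k)) := rfl

theorem map_map_expand (M : Matrix ι ι (ZMod p)[X]) (a b : ℕ) :
    (M.map (expand (ZMod p) a)).map (expand (ZMod p) b) = M.map (expand (ZMod p) (b * a)) := by
  ext i j : 1
  simp only [Matrix.map_apply]
  rw [expand_expand]

theorem prodM_add (M : Matrix ι ι (ZMod p)[X]) (m n : ℕ) :
    prodM M (m+n) = prodM M m * (prodM M n).map (expand (ZMod p) (p^m)) := by
  induction n with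
  | zero =>
    rw [prodM_zero, Matrix.map_one _ (map_zero _) (map_one _), add_zero, mul_one]
  | succ n ih =>
    rw [← add_assoc, prodM_succ, ih, prodM_succ, Matrix.map_mul, map_map_expand, pow_add,
      Matrix.mul_assoc]

theorem prodM_split (M : Matrix ι ι (ZMod p)[X]) (j J k : ℕ) (hj : j ≤ J) (hJ : J ≤ k) :
    (prodM M k).map (expand (ZMod p) (p^j)) =
      (prodM M (J-j)).map (expand (ZMod p) (p^j)) * (prodM M (k-J)).map (expand (ZMod p) (p^J)) *
        (prodM M j).map (expand (ZMod p) (p^k)) := by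
  have h1 : prodM M k = prodM M (J-j) * (prodM M (k-J)).map (expand (ZMod p) (p^(J-j))) *
      (prodM M j).map (expand (ZMod p) (p^(k-j))) := by
    have e : k = (J - j) + (k - J) + j := by omega
    conv_lhs => rw [e]
    have e2 : J - j + (k - J) = k - j := by omega
    rw [prodM_add, prodM_add, e2]
  have e3 : j + (J - j) = J := by omega
  have e4 : j + (k - j) = k := by omega
  rw [h1, Matrix.map_mul, Matrix.map_mul, map_map_expand, map_map_expand, ← pow_add, ← pow_add,
    e3, e4]

theorem natDegree_expand_le (q : ℕ) (f : (ZMod p)[X]) (d : ℕ) (hf : f.natDegree ≤ d) :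
    (expand (ZMod p) q f).natDegree ≤ d * q := by
  rw [natDegree_expand]; gcongr

theorem natDegree_matMul_le (A B : Matrix ι ι (ZMod p)[X]) (a b : ℕ)
    (hA : ∀ i j, (A i j).natDegree ≤ a) (hB : ∀ i j, (B i j).natDegree ≤ b) (i j : ι) :
    ((A * B) i j).natDegree ≤ a + b := by
  rw [Matrix.mul_apply]
  refine natDegree_sum_le_of_forall_le _ _ fun l _ => ?_
  refine (natDegree_mul_le).trans ?_
  have := hA i l
  have := hB l j
  omega

theorem natDegree_prodM_le (M : Matrix ι ι (ZMod p)[X]) (h : ℕ)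
    (hM : ∀ i j, (M i j).natDegree ≤ h) (k : ℕ) (i j : ι) :
    (prodM M k i j).natDegree ≤ h * p^k := by
  induction k generalizing i j with
  | zero =>
    rw [prodM_zero, Matrix.one_apply]
    split_ifs <;> simp
  | succ k ih =>
    rw [prodM_succ]
    have h1 := natDegree_matMul_le (prodM M k) (M.map (expand (ZMod p) (p^k))) (h * p^k) (h * p^k)
      ih (fun i j => by
        rw [Matrix.map_apply]; exact natDegree_expand_le _ _ _ (hM i j)) i j
    refine h1.trans ?_
    have hp2 : 2 ≤ p := (Fact.out : p.Prime).two_le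
    calc h * p^k + h * p^k = h * (p^k * 2) := by ring
      _ ≤ h * (p^k * p) := by gcongr
      _ = h * p^(k+1) := by rw [pow_succ]

theorem expand_pow_card (f : (ZMod p)[X]) (j : ℕ) :
    expand (ZMod p) (p^j) f = f^(p^j) := by
  induction j with
  | zero => simp
  | succ j ih =>
    rw [pow_succ', expand_mul, ih, ZMod.expand_card, pow_mul']

/-- a bilinear relation between coefficients gives a relation between products -/
theorem sum_mul_expand_eq_zero {τ : Type} [Fintype τ] (g : τ → ZMod p) (A B : τ → (ZMod p)[X])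
    (N : ℕ) (hA : ∀ t, (A t).natDegree < N) (hB : ∀ t, (B t).natDegree < N)
    (h : ∀ x y : Fin N, ∑ t, g t * ((A t).coeff x * (B t).coeff y) = 0) (q : ℕ) :
    ∑ t, C (g t) * (A t * expand (ZMod p) q (B t)) = 0 := by
  have e : ∀ t, C (g t) * (A t * expand (ZMod p) q (B t)) =
      ∑ x : Fin N, ∑ y : Fin N,
        C (g t * ((A t).coeff x * (B t).coeff y)) * (X^(x:ℕ) * X^(q*(y:ℕ))) := by
    intro t
    have eA : A t = ∑ x : Fin N, C ((A t).coeff x) * X^(x:ℕ) := by
      conv_lhs => rw [(A t).as_sum_range_C_mul_X_pow' (hA t)]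
      rw [Finset.sum_range]
    have eB : expand (ZMod p) q (B t) = ∑ y : Fin N, C ((B t).coeff y) * X^(q*(y:ℕ)) := by
      conv_lhs => rw [(B t).as_sum_range_C_mul_X_pow' (hB t)]
      rw [Finset.sum_range, map_sum]
      refine Finset.sum_congr rfl fun y _ => ?_
      rw [map_mul, expand_C, map_pow, expand_X, pow_mul]
    rw [eB]
    conv_lhs => rw [eA]
    rw [Finset.sum_mul_sum, Finset.mul_sum]
    refine Finset.sum_congr rfl fun x _ => ?_
    rw [Finset.mul_sum]
    refine Finset.sum_congr rfl fun y _ => ?_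
    simp only [C_mul]
    ring
  rw [Finset.sum_congr rfl (fun t _ => e t), Finset.sum_comm]
  refine Finset.sum_eq_zero fun x _ => ?_
  rw [Finset.sum_comm]
  refine Finset.sum_eq_zero fun y _ => ?_
  rw [← Finset.sum_mul, ← map_sum, h x y, C_0, zero_mul]

/-- pigeonhole: a nontrivial solution of a homogeneous linear system -/
theorem exists_solution {τ σ : Type} [Fintype τ] [Fintype σ] (hc : Fintype.card σ < Fintype.card τ)
    (a : σ → τ → ZMod p) : ∃ g : τ → ZMod p, g ≠ 0 ∧ ∀ s, ∑ t, g t * a s t = 0 := by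
  classical
  let φ : (τ → ZMod p) →ₗ[ZMod p] (σ → ZMod p) := Matrix.mulVecLin (Matrix.of a)
  have hk : LinearMap.ker φ ≠ ⊥ := by
    apply LinearMap.ker_ne_bot_of_finrank_lt
    rw [Module.finrank_fintype_fun_eq_card, Module.finrank_fintype_fun_eq_card]
    exact hc
  obtain ⟨g, hg, hg0⟩ := (Submodule.ne_bot_iff _).1 hk
  refine ⟨g, hg0, fun s => ?_⟩
  have := congrFun (LinearMap.mem_ker.1 hg) s
  simp only [φ, Matrix.mulVecLin_apply, Matrix.mulVec, dotProduct, Matrix.of_apply,
    Pi.zero_apply] at this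
  rw [← this]
  exact Finset.sum_congr rfl fun t _ => mul_comm _ _

/-- the bivariate polynomial with coefficients `g`, at `(X, X^q)` -/
noncomputable def bi (L q : ℕ) (g : Fin L × Fin L → ZMod p) : (ZMod p)[X] :=
  ∑ c : Fin L × Fin L, C (g c) * X^((c.1:ℕ) + (c.2:ℕ) * q)

theorem bi_coeff (L q : ℕ) (hL : L ≤ q) (g : Fin L × Fin L → ZMod p) (c : Fin L × Fin L) :
    (bi L q g).coeff ((c.1:ℕ) + (c.2:ℕ) * q) = g c := by
  have hq : 0 < q := lt_of_lt_of_le (lt_of_le_of_lt (Nat.zero_le _) c.1.2) hL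
  rw [bi, finsetSum_coeff, Finset.sum_eq_single c]
  · rw [coeff_C_mul, coeff_X_pow, if_pos rfl, mul_one]
  · intro b _ hb
    rw [coeff_C_mul, coeff_X_pow, if_neg, mul_zero]
    intro h
    apply hb
    have h1 : (c.1:ℕ) = b.1 := by
      have := congrArg (· % q) h
      simpa [Nat.add_mul_mod_self_right, Nat.mod_eq_of_lt (c.1.2.trans_le hL),
        Nat.mod_eq_of_lt (b.1.2.trans_le hL)] using this
    have h2 : (c.2:ℕ) = b.2 := by
      rw [h1] at h
      exact Nat.eq_of_mul_eq_mul_right hq (by omega)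
    exact Prod.ext (Fin.ext h1.symm) (Fin.ext h2.symm)
  · intro h; exact absurd (Finset.mem_univ _) h

theorem bi_support (L q : ℕ) (g : Fin L × Fin L → ZMod p) :
    (bi L q g).support.card ≤ L^2 := by
  have h : (bi L q g).support ⊆
      Finset.univ.image (fun c : Fin L × Fin L => (c.1:ℕ) + (c.2:ℕ) * q) := by
    intro n hn
    rw [mem_support_iff, bi, finsetSum_coeff] at hn
    obtain ⟨c, -, hc⟩ := Finset.exists_ne_zero_of_sum_ne_zero hn
    rw [coeff_C_mul, coeff_X_pow] at hc
    rw [Finset.mem_image]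
    refine ⟨c, Finset.mem_univ _, ?_⟩
    by_contra hne
    rw [if_neg (fun h => hne h.symm), mul_zero] at hc
    exact hc rfl
  calc (bi L q g).support.card ≤ _ := Finset.card_le_card h
    _ ≤ _ := Finset.card_image_le
    _ = L^2 := by simp [sq]

theorem bi_natDegree (L q : ℕ) (g : Fin L × Fin L → ZMod p) :
    (bi L q g).natDegree ≤ L + L * q := by
  refine natDegree_sum_le_of_forall_le _ _ fun c _ => ?_
  refine (natDegree_C_mul_X_pow_le _ _).trans ?_
  have h1 := c.1.2.le
  have h2 := c.2.2.le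
  gcongr

theorem contract_arg (k J L : ℕ) (hL : L ≤ p^k) (hJ : J ≤ k) (F : (ZMod p)[X]) (hF : F ≠ 0)
    (g : Fin (J+1) → Fin L × Fin L → ZMod p) (hg : g ≠ 0)
    (hrel : ∑ j : Fin (J+1), bi L (p^k) (g j) * F^(p^(j:ℕ)) = 0) :
    ∃ S : (ZMod p)[X], S ≠ 0 ∧ F ∣ S ∧ S.support.card ≤ L^2 ∧ S.natDegree ≤ 3 * L * p^k := by
  classical
  have hp : p.Prime := Fact.out
  have hp0 : 0 < p := hp.pos
  have hex : ∃ j : Fin (J+1), g j ≠ 0 := by
    by_contra hcon
    push Not at hcon
    exact hg (funext hcon)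
  obtain ⟨j0, hj0, hmin⟩ : ∃ j0 : Fin (J+1), g j0 ≠ 0 ∧ ∀ j, j < j0 → g j = 0 := by
    have hne : (Finset.univ.filter (fun j => g j ≠ 0)).Nonempty := by
      obtain ⟨j, hj⟩ := hex
      exact ⟨j, by simp [hj]⟩
    refine ⟨(Finset.univ.filter (fun j => g j ≠ 0)).min' hne, ?_, ?_⟩
    · have := Finset.min'_mem _ hne
      simpa using this
    · intro j hj
      by_contra hcon
      have := Finset.min'_le (Finset.univ.filter (fun j => g j ≠ 0)) j (by simp [hcon])
      exact absurd this (not_le.2 hj)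
  obtain ⟨c, hc⟩ : ∃ c, g j0 c ≠ 0 := by
    by_contra hcon
    push Not at hcon
    exact hj0 (funext hcon)
  set q := p^(j0:ℕ) with hq
  have hq0 : 0 < q := pow_pos hp0 _
  have hj0k : (j0:ℕ) ≤ k := by have := j0.2; omega
  set e := (q-1) * (c.1:ℕ) with he
  set S := contract q (X^e * bi L (p^k) (g j0)) with hS
  have hcoef : S.coeff ((c.1:ℕ) + (c.2:ℕ) * p^(k-(j0:ℕ))) = g j0 c := by
    rw [hS, coeff_contract hq0.ne']
    have h1 : ((c.1:ℕ) + (c.2:ℕ) * p^(k-(j0:ℕ))) * q = ((c.1:ℕ) + (c.2:ℕ) * p^k) + e := by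
      have h2 : p^(k-(j0:ℕ)) * q = p^k := by rw [hq, ← pow_add]; congr 1; omega
      have h3 : (c.1:ℕ) * q = (c.1:ℕ) + e := by
        obtain ⟨q', hq'⟩ : ∃ q', q = q' + 1 := ⟨q-1, by omega⟩
        rw [he, hq']
        simp only [Nat.add_sub_cancel]
        ring
      rw [add_mul, mul_assoc, h2, h3]
      ring
    rw [h1, coeff_X_pow_mul, bi_coeff L (p^k) hL]
  refine ⟨S, ?_, ?_, ?_, ?_⟩
  · intro h0
    rw [h0, coeff_zero] at hcoef
    exact hc hcoef.symm
  · -- divisibility
    have hrel2 : ∑ j ∈ Finset.univ.filter (fun j : Fin (J+1) => j0 ≤ j),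
        bi L (p^k) (g j) * F^(p^(j:ℕ)) = 0 := by
      rw [← hrel, Finset.sum_filter]
      refine Finset.sum_congr rfl fun j _ => ?_
      split_ifs with h
      · rfl
      · rw [hmin j (not_le.1 h)]
        simp [bi]
    have hcon : ∑ j ∈ Finset.univ.filter (fun j : Fin (J+1) => j0 ≤ j),
        contract q (X^e * bi L (p^k) (g j)) * F^(p^((j:ℕ) - j0)) = 0 := by
      have h1 : contract q (X^e * ∑ j ∈ Finset.univ.filter (fun j : Fin (J+1) => j0 ≤ j),
        bi L (p^k) (g j) * F^(p^(j:ℕ))) = 0 := by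
        rw [hrel2, mul_zero]
        ext n
        rw [coeff_contract hq0.ne']
        simp
      rw [Finset.mul_sum] at h1
      have hadd : ∀ (s : Finset (Fin (J+1))) (f : Fin (J+1) → (ZMod p)[X]),
          contract q (∑ j ∈ s, f j) = ∑ j ∈ s, contract q (f j) := by
        intro s f
        ext n
        rw [coeff_contract hq0.ne', finsetSum_coeff, finsetSum_coeff]
        exact Finset.sum_congr rfl fun j _ => by rw [coeff_contract hq0.ne']
      rw [hadd] at h1
      rw [← h1]
      refine Finset.sum_congr rfl fun j hj => ?_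
      have hj' : (j0:ℕ) ≤ j := by simpa using hj
      have h2 : F^(p^(j:ℕ)) = expand (ZMod p) q (F^(p^((j:ℕ) - j0))) := by
        rw [hq, expand_pow_card, ← pow_mul, ← pow_add]
        congr 2
        omega
      rw [h2, ← mul_assoc, contract_mul_expand hq0.ne']
    rw [← Finset.add_sum_erase _ _ (show j0 ∈ Finset.univ.filter
      (fun j : Fin (J+1) => j0 ≤ j) by simp)] at hcon
    rw [Nat.sub_self, pow_zero, pow_one, ← hS] at hcon
    have hdvd : F * F ∣ ∑ x ∈ (Finset.univ.filter (fun j : Fin (J+1) => j0 ≤ j)).erase j0,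
        contract q (X^e * bi L (p^k) (g x)) * F^(p^((x:ℕ) - j0)) := by
      refine Finset.dvd_sum fun j hj => ?_
      have hj' : (j0:ℕ) < j := by
        simp only [Finset.mem_erase, Finset.mem_filter, Finset.mem_univ, true_and] at hj
        have h5 : j0 < j := lt_of_le_of_ne hj.2 (Ne.symm hj.1)
        exact h5
      have h2 : 2 ≤ p^((j:ℕ) - j0) := by
        calc 2 ≤ p := hp.two_le
          _ = p^1 := (pow_one p).symm
          _ ≤ p^((j:ℕ) - j0) := Nat.pow_le_pow_right hp0 (by omega)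
      rw [← sq]
      exact Dvd.dvd.mul_left (pow_dvd_pow F h2) _
    have h3 : F * F ∣ S * F := by
      have h4 : S * F = - ∑ x ∈ (Finset.univ.filter (fun j : Fin (J+1) => j0 ≤ j)).erase j0,
        contract q (X^e * bi L (p^k) (g x)) * F^(p^((x:ℕ) - j0)) := by
        linear_combination hcon
      rw [h4]
      exact (dvd_neg).2 hdvd
    exact (mul_dvd_mul_iff_right hF).1 h3
  · -- support
    calc S.support.card ≤ (X^e * bi L (p^k) (g j0)).support.card := by
          refine Finset.card_le_card_of_injOn (fun n => n * q) ?_ ?_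
          · intro n hn
            simp only [Finset.mem_coe, mem_support_iff, hS, coeff_contract hq0.ne'] at hn ⊢
            exact hn
          · intro a _ b _ hab
            exact Nat.eq_of_mul_eq_mul_right hq0 hab
      _ ≤ (bi L (p^k) (g j0)).support.card := by
          rw [X_pow_mul]
          refine Finset.card_le_card_of_injOn (fun n => n - e) ?_ ?_
          · intro n hn
            simp only [Finset.mem_coe, mem_support_iff, coeff_mul_X_pow'] at hn ⊢
            split_ifs at hn with h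
            · exact hn
            · exact absurd rfl hn
          · intro a ha b hb hab
            simp only [Finset.mem_coe, mem_support_iff, coeff_mul_X_pow'] at ha hb
            split_ifs at ha hb with h1 h2
            · simp only at hab; omega
            · exact absurd rfl hb
            · exact absurd rfl ha
            · exact absurd rfl ha
      _ ≤ L^2 := bi_support _ _ _
  · -- degree
    have h1 : S.natDegree * q ≤ e + (L + L * p^k) := by
      have h2 : (X^e * bi L (p^k) (g j0)).coeff (S.natDegree * q) ≠ 0 := by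
        rw [← coeff_contract hq0.ne', ← hS]
        intro h0
        have : S = 0 := leadingCoeff_eq_zero.1 h0
        rw [this, coeff_zero] at hcoef
        exact hc hcoef.symm
      refine (le_natDegree_of_ne_zero h2).trans ?_
      refine (natDegree_mul_le).trans ?_
      rw [natDegree_X_pow]
      exact Nat.add_le_add_left (bi_natDegree _ _ _) _
    have hcL : (c.1:ℕ) ≤ L := c.1.2.le
    have h2 : e ≤ q * L := by
      rw [he]
      exact Nat.mul_le_mul (Nat.sub_le _ _) hcL
    have hpk : 1 ≤ p^k := Nat.one_le_pow _ _ hp0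
    have h5 : S.natDegree * q ≤ (3 * L * p^k) * q := by
      calc S.natDegree * q ≤ q * L + (L + L * p^k) := h1.trans (Nat.add_le_add_right h2 _)
        _ = (q * L) * 1 + (1 * L * 1 + 1 * L * p^k) := by ring
        _ ≤ (q * L) * p^k + (q * L * p^k + q * L * p^k) := by gcongr <;> exact hq0
        _ = (3 * L * p^k) * q := by ring
    exact Nat.le_of_mul_le_mul_right h5 hq0

open Matrix in
/-- the cocycle polynomial -/
noncomputable def cocyc (M : Matrix ι ι (ZMod p)[X]) (u w : ι → (ZMod p)[X]) (k : ℕ) :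
    (ZMod p)[X] :=
  u ⬝ᵥ (prodM M k *ᵥ fun j => expand (ZMod p) (p^k) (w j))

open Matrix in
theorem map_expand_dot (q : ℕ) (a b : ι → (ZMod p)[X]) :
    expand (ZMod p) q (a ⬝ᵥ b) =
      (fun i => expand (ZMod p) q (a i)) ⬝ᵥ (fun i => expand (ZMod p) q (b i)) := by
  simp only [dotProduct, map_sum, map_mul]

open Matrix in
theorem map_expand_mulVec (q : ℕ) (A : Matrix ι ι (ZMod p)[X]) (b : ι → (ZMod p)[X]) :
    (fun i => expand (ZMod p) q ((A *ᵥ b) i)) =
      (A.map (expand (ZMod p) q)) *ᵥ (fun i => expand (ZMod p) q (b i)) := by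
  ext i : 1
  simp only [mulVec, map_expand_dot]
  rfl

open Matrix in
theorem cocyc_pow (M : Matrix ι ι (ZMod p)[X]) (u w : ι → (ZMod p)[X]) (j J k : ℕ) (hj : j ≤ J)
    (hJ : J ≤ k) :
    (cocyc M u w k)^(p^j) =
      ((fun i => expand (ZMod p) (p^j) (u i)) ᵥ* (prodM M (J-j)).map (expand (ZMod p) (p^j))) ⬝ᵥ
        ((prodM M (k-J)).map (expand (ZMod p) (p^J)) *ᵥ
          (fun i => expand (ZMod p) (p^k)
            ((prodM M j *ᵥ (fun i => expand (ZMod p) (p^j) (w i))) i))) := by
  rw [← expand_pow_card, cocyc, map_expand_dot, map_expand_mulVec, prodM_split M j J k hj hJ]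
  have h1 : (fun i => expand (ZMod p) (p^j) (expand (ZMod p) (p^k) (w i))) =
      fun i => expand (ZMod p) (p^k) (expand (ZMod p) (p^j) (w i)) := by
    ext i : 1
    rw [expand_expand, expand_expand, mul_comm]
  rw [h1, map_expand_mulVec (p^k), mulVec_mulVec, dotProduct_mulVec,
    dotProduct_mulVec, vecMul_vecMul, Matrix.mul_assoc]

open Matrix in
theorem big_k (J L k d h : ℕ) (hL : L ≤ p^k) (hJ : J ≤ k) (hd : 2 * h * p^J ≤ d)
    (hcard : Fintype.card (ι × ι) * (L + d)^2 < (J+1) * L^2)
    (M : Matrix ι ι (ZMod p)[X]) (u w : ι → (ZMod p)[X])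
    (hM : ∀ i j, (M i j).natDegree ≤ h) (hu : ∀ i, (u i).natDegree ≤ h)
    (hw : ∀ i, (w i).natDegree ≤ h) (hF : cocyc M u w k ≠ 0) :
    ∃ S : (ZMod p)[X], S ≠ 0 ∧ cocyc M u w k ∣ S ∧ S.support.card ≤ L^2 ∧
      S.natDegree ≤ 3 * L * p^k := by
  classical
  have hp : p.Prime := Fact.out
  have hp0 : 0 < p := hp.pos
  set c : Fin (J+1) → ι → (ZMod p)[X] := fun j =>
    ((fun i => expand (ZMod p) (p^(j:ℕ)) (u i)) ᵥ*
      (prodM M (J-j)).map (expand (ZMod p) (p^(j:ℕ)))) with hc
  set b : Fin (J+1) → ι → (ZMod p)[X] := fun j =>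
    (prodM M (j:ℕ) *ᵥ (fun i => expand (ZMod p) (p^(j:ℕ)) (w i))) with hb
  have hcd : ∀ j a, (c j a).natDegree ≤ d := by
    intro j a
    refine le_trans ?_ hd
    simp only [hc, vecMul, dotProduct]
    refine natDegree_sum_le_of_forall_le _ _ fun i _ => ?_
    refine (natDegree_mul_le).trans ?_
    have h1 := natDegree_expand_le (p^(j:ℕ)) (u i) h (hu i)
    have h2 : ((prodM M (J-j)).map (expand (ZMod p) (p^(j:ℕ))) i a).natDegree ≤
        h * p^(J-(j:ℕ)) * p^(j:ℕ) :=
      natDegree_expand_le _ _ _ (natDegree_prodM_le M h hM _ _ _)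
    have h3 : p^(J-(j:ℕ)) * p^(j:ℕ) = p^J := by
      rw [← pow_add]; congr 1; have := j.2; omega
    have h4 : p^(j:ℕ) ≤ p^J := Nat.pow_le_pow_right hp0 (by have := j.2; omega)
    rw [mul_assoc, h3] at h2
    have h5 : h * p^(j:ℕ) ≤ h * p^J := Nat.mul_le_mul_left _ h4
    calc _ ≤ h * p^J + h * p^J := add_le_add (h1.trans h5) h2
      _ = 2 * h * p^J := by ring
  have hbd : ∀ j a, (b j a).natDegree ≤ d := by
    intro j a
    refine le_trans ?_ hd
    simp only [hb, mulVec, dotProduct]
    refine natDegree_sum_le_of_forall_le _ _ fun i _ => ?_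
    refine (natDegree_mul_le).trans ?_
    have h1 := natDegree_expand_le (p^(j:ℕ)) (w i) h (hw i)
    have h2 := natDegree_prodM_le M h hM j a i
    have h4 : p^(j:ℕ) ≤ p^J := Nat.pow_le_pow_right hp0 (by have := j.2; omega)
    have h5 : h * p^(j:ℕ) ≤ h * p^J := Nat.mul_le_mul_left _ h4
    calc _ ≤ h * p^J + h * p^J := add_le_add (h2.trans h5) (h1.trans h5)
      _ = 2 * h * p^J := by ring
  have hL0 : 0 < L := by
    rcases Nat.eq_zero_or_pos L with h0 | h0
    · subst h0; simp at hcard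
    · exact h0
  -- the linear system
  obtain ⟨g, hg0, hg⟩ := exists_solution (p := p) (τ := Fin (J+1) × (Fin L × Fin L))
    (σ := (ι × ι) × (Fin (L+d) × Fin (L+d))) (by
      simp only [Fintype.card_prod, Fintype.card_fin] at hcard ⊢
      calc _ = (Fintype.card ι * Fintype.card ι) * (L+d)^2 := by ring
        _ < (J+1) * L^2 := hcard
        _ = _ := by ring)
    (fun s t => (X^(t.2.1:ℕ) * c t.1 s.1.1).coeff s.2.1 * (X^(t.2.2:ℕ) * b t.1 s.1.2).coeff s.2.2)
  have hrel : ∑ j : Fin (J+1), bi L (p^k) (fun x => g (j, x)) * (cocyc M u w k)^(p^(j:ℕ)) = 0 := by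
    have hX : ∀ (n : Fin L) (f : (ZMod p)[X]), f.natDegree ≤ d → (X^(n:ℕ) * f).natDegree < L + d := by
      intro n f hf
      refine lt_of_le_of_lt (natDegree_mul_le) ?_
      rw [natDegree_X_pow]
      have := n.2
      omega
    have h1 : ∀ a a' : ι, ∑ t : Fin (J+1) × (Fin L × Fin L), C (g t) * ((X^(t.2.1:ℕ) * c t.1 a) *
        expand (ZMod p) (p^k) (X^(t.2.2:ℕ) * b t.1 a')) = 0 := by
      intro a a'
      apply sum_mul_expand_eq_zero g _ _ (L+d)
      · intro t; exact hX _ _ (hcd _ _)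
      · intro t; exact hX _ _ (hbd _ _)
      · intro x y
        exact hg ((a, a'), (x, y))
    have h2 : ∀ j : Fin (J+1), bi L (p^k) (fun x => g (j, x)) * (cocyc M u w k)^(p^(j:ℕ)) =
        ∑ x : Fin L × Fin L, ∑ a : ι, ∑ a' : ι,
          (prodM M (k-J)).map (expand (ZMod p) (p^J)) a a' *
          (C (g (j,x)) * ((X^(x.1:ℕ) * c j a) * expand (ZMod p) (p^k) (X^(x.2:ℕ) * b j a'))) := by
      intro j
      rw [cocyc_pow M u w j J k (by have := j.2; omega) hJ, bi, Finset.sum_mul]
      refine Finset.sum_congr rfl fun x _ => ?_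
      rw [dotProduct, Finset.mul_sum]
      refine Finset.sum_congr rfl fun a _ => ?_
      rw [mulVec, dotProduct, Finset.mul_sum, Finset.mul_sum]
      refine Finset.sum_congr rfl fun a' _ => ?_
      simp only [hc, hb, map_mul, map_pow, expand_X]
      rw [pow_add, ← pow_mul, mul_comm (x.2:ℕ) (p^k)]
      ring
    rw [Finset.sum_congr rfl (fun j _ => h2 j), ← Fintype.sum_prod_type'
      (f := fun (j : Fin (J+1)) (x : Fin L × Fin L) => ∑ a : ι, ∑ a' : ι,
          (prodM M (k-J)).map (expand (ZMod p) (p^J)) a a' *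
          (C (g (j,x)) * ((X^(x.1:ℕ) * c j a) * expand (ZMod p) (p^k) (X^(x.2:ℕ) * b j a')))),
      Finset.sum_comm]
    refine Finset.sum_eq_zero fun a _ => ?_
    rw [Finset.sum_comm]
    refine Finset.sum_eq_zero fun a' _ => ?_
    rw [← Finset.mul_sum]
    have := h1 a a'
    rw [this, mul_zero]
  refine contract_arg k J L hL hJ _ hF (fun j x => g (j, x)) ?_ hrel
  intro h0
  apply hg0
  ext ⟨j, x⟩
  have := congrFun (congrFun h0 j) x
  rw [this]
  rfl

/-- **sparse multiples**: every nonzero cocycle polynomial divides a nonzero polynomial with a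
bounded number of monomials, of degree `O(p^k)`. -/
theorem sparse_multiple (p : ℕ) [Fact p.Prime] (s h : ℕ) :
    ∃ N D : ℕ, ∀ (ι : Type) [Fintype ι] [DecidableEq ι], Fintype.card ι ≤ s →
      ∀ (M : Matrix ι ι (ZMod p)[X]) (u w : ι → (ZMod p)[X]),
      (∀ i j, (M i j).natDegree ≤ h) → (∀ i, (u i).natDegree ≤ h) → (∀ i, (w i).natDegree ≤ h) →
      ∀ k : ℕ, cocyc M u w k ≠ 0 →
        ∃ T : (ZMod p)[X], T ≠ 0 ∧ cocyc M u w k ∣ T ∧ T.support.card ≤ N ∧
          T.natDegree ≤ D * p^k := by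
  have hp : p.Prime := Fact.out
  have hp0 : 0 < p := hp.pos
  obtain ⟨J, hJ⟩ : ∃ J, J = s^2 := ⟨_, rfl⟩
  obtain ⟨d, hd⟩ : ∃ d, d = 2 * h * p^J := ⟨_, rfl⟩
  obtain ⟨L, hL⟩ : ∃ L, L = 2 * s^2 * d + s * d + 1 := ⟨_, rfl⟩
  refine ⟨L^2 + (3 * h * (L + p^J) + 1), 3 * L + 3 * h, ?_⟩
  intro ι _ _ hι M u w hM hu hw k hF
  by_cases hk : L ≤ p^k ∧ J ≤ k
  · have hcard : Fintype.card (ι × ι) * (L + d)^2 < (J+1) * L^2 := by
      rw [Fintype.card_prod]
      have h1 : Fintype.card ι * Fintype.card ι ≤ s^2 := by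
        rw [sq]; exact Nat.mul_le_mul hι hι
      have h2 : s^2 * (2 * L * d + d^2) < L^2 := by
        have h3 : s * d < L := by rw [hL]; omega
        have h4 : L^2 = L * (2 * s^2 * d) + L * (s * d + 1) := by
          conv_lhs => rw [sq]
          nth_rewrite 2 [hL]
          ring
        have h5 : (s*d)^2 < L * (s * d + 1) := by
          rw [sq]
          exact Nat.mul_lt_mul'' h3 (by omega)
        calc s^2 * (2 * L * d + d^2) = L * (2 * s^2 * d) + (s*d)^2 := by ring
          _ < L * (2 * s^2 * d) + L * (s * d + 1) := by omega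
          _ = L^2 := h4.symm
      calc Fintype.card ι * Fintype.card ι * (L + d)^2 ≤ s^2 * (L+d)^2 := Nat.mul_le_mul_right _ h1
        _ = s^2 * L^2 + s^2 * (2 * L * d + d^2) := by ring
        _ < s^2 * L^2 + L^2 := by omega
        _ = (J+1) * L^2 := by rw [hJ]; ring
    obtain ⟨S, hS0, hdiv, hsup, hdeg⟩ := big_k J L k d h hk.1 hk.2 hd.ge hcard M u w hM hu hw hF
    refine ⟨S, hS0, hdiv, by omega, hdeg.trans ?_⟩
    gcongr
    omega
  · refine ⟨cocyc M u w k, hF, dvd_rfl, ?_, ?_⟩
    all_goals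
      have hdeg : (cocyc M u w k).natDegree ≤ 3 * h * p^k := by
        unfold cocyc
        simp only [dotProduct, Matrix.mulVec]
        refine natDegree_sum_le_of_forall_le _ _ fun i _ => ?_
        refine (natDegree_mul_le).trans ?_
        have h1 : (∑ j, prodM M k i j * expand (ZMod p) (p^k) (w j)).natDegree ≤ 2 * h * p^k := by
          refine natDegree_sum_le_of_forall_le _ _ fun j _ => ?_
          refine (natDegree_mul_le).trans ?_
          have h2 := natDegree_prodM_le M h hM k i j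
          have h3 := natDegree_expand_le (p^k) (w j) h (hw j)
          calc _ ≤ h * p^k + h * p^k := add_le_add h2 h3
            _ = 2 * h * p^k := by ring
        have h4 : h * 1 ≤ h * p^k := Nat.mul_le_mul_left _ (Nat.one_le_pow _ _ hp0)
        have h5 := hu i
        calc _ ≤ h * p^k + 2 * h * p^k := add_le_add (h5.trans (by omega)) h1
          _ = 3 * h * p^k := by ring
    · have h6 : p^k ≤ L + p^J := by
        by_cases h7 : L ≤ p^k
        · have h8 : k < J := by
            by_contra hcon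
            exact hk ⟨h7, not_lt.1 hcon⟩
          have := Nat.pow_le_pow_right hp0 h8.le
          omega
        · omega
      have h7 := card_supp_le_succ_natDegree (cocyc M u w k)
      have h8 : 3 * h * p^k ≤ 3 * h * (L + p^J) := Nat.mul_le_mul_left _ h6
      omega
    · refine hdeg.trans ?_
      gcongr
      omega

end Pool.Agent.Helper36.Leh
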