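import Pool.Agent.Helper36.Leh.Core

/-!
# Truncations of `p`-automatic sequences are cocycle polynomials
-/

set_option linter.unusedSectionVars false

open Polynomial Finset

namespace Pool.Agent.Helper36.Leh

variable {p : ℕ} [Fact p.Prime]

/-- the `p`-kernel of a sequence -/
def ker (p : ℕ) (a : ℕ → ZMod p) : Set (ℕ → ZMod p) :=
  {b | ∃ j r : ℕ, r < p^j ∧ b = fun n => a (p^j * n + r)}

theorem self_mem_ker (a : ℕ → ZMod p) : a ∈ ker p a :=
  ⟨0, 0, by simp, by ext n; simp⟩

theorem section_mem_ker (a b : ℕ → ZMod p) (hb : b ∈ ker p a) (r : ℕ) (hr : r < p) :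
    (fun n => b (p * n + r)) ∈ ker p a := by
  obtain ⟨j, r', hr', rfl⟩ := hb
  refine ⟨j+1, p^j * r + r', ?_, ?_⟩
  · calc p^j * r + r' < p^j * r + p^j := by omega
      _ = p^j * (r+1) := by ring
      _ ≤ p^j * p := by gcongr; omega
      _ = p^(j+1) := by rw [pow_succ]
  · ext n
    show a (p^j * (p * n + r) + r') = a (p^(j+1) * n + (p^j * r + r'))
    rw [show p^j * (p * n + r) + r' = p^(j+1) * n + (p^j * r + r') by ring]

/-- truncation at `X^{c p^k}` -/
noncomputable def tr (p c : ℕ) (b : ℕ → ZMod p) (k : ℕ) : (ZMod p)[X] :=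
  ∑ n ∈ range (c * p^k), C (b n) * X^n

theorem tr_succ (c : ℕ) (b : ℕ → ZMod p) (k : ℕ) :
    tr p c b (k+1) =
      ∑ r ∈ range p, X^r * expand (ZMod p) p (tr p c (fun n => b (p * n + r)) k) := by
  unfold tr
  have h1 : ∀ r ∈ range p, X^r * expand (ZMod p) p
      (∑ n ∈ range (c * p^k), C (b (p * n + r)) * X^n) =
      ∑ n ∈ range (c * p^k), C (b (p * n + r)) * X^(p * n + r) := by
    intro r _
    rw [map_sum, Finset.mul_sum]
    refine Finset.sum_congr rfl fun n _ => ?_
    rw [map_mul, expand_C, map_pow, expand_X]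
    ring
  rw [Finset.sum_congr rfl h1, Finset.sum_comm, pow_succ, ← mul_assoc]
  rw [Finset.sum_range, Finset.sum_range]
  rw [← finProdFinEquiv.sum_comp, Fintype.sum_prod_type]
  refine Finset.sum_congr rfl fun n _ => ?_
  rw [Finset.sum_range]
  refine Finset.sum_congr rfl fun r _ => ?_
  simp only [finProdFinEquiv_apply_val]
  rw [add_comm (r:ℕ)]

section
variable {ι : Type} [Fintype ι] [DecidableEq ι]

theorem prodM_one (M : Matrix ι ι (ZMod p)[X]) : prodM M 1 = M := by
  rw [prodM_succ, prodM_zero, one_mul, pow_zero]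
  ext i j : 1
  rw [Matrix.map_apply, expand_one]

open Matrix in
theorem step (M : Matrix ι ι (ZMod p)[X]) (w : ι → (ZMod p)[X]) (k : ℕ) (i : ι) :
    (prodM M (k+1) *ᵥ fun j => expand (ZMod p) (p^(k+1)) (w j)) i =
      ∑ j, M i j * expand (ZMod p) p ((prodM M k *ᵥ fun j => expand (ZMod p) (p^k) (w j)) j) := by
  have h1 : (fun j => expand (ZMod p) (p^(k+1)) (w j)) =
      fun j => expand (ZMod p) p (expand (ZMod p) (p^k) (w j)) := by
    ext j : 1
    rw [expand_expand, pow_succ']
  rw [add_comm k 1, prodM_add, prodM_one, add_comm 1 k, h1, pow_one, ← mulVec_mulVec,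
    ← map_expand_mulVec]
  rfl
end

open Matrix in
/-- the truncation of a sequence with finite kernel is a cocycle polynomial -/
theorem tr_eq_cocyc (c : ℕ) (a : ℕ → ZMod p) (hfin : (ker p a).Finite) :
    ∃ (ι : Type) (_ : Fintype ι) (_ : DecidableEq ι), Fintype.card ι = (ker p a).ncard ∧
      ∃ (M : Matrix ι ι (ZMod p)[X]) (u w : ι → (ZMod p)[X]),
        (∀ i j, (M i j).natDegree ≤ p + c) ∧ (∀ i, (u i).natDegree ≤ p + c) ∧
        (∀ i, (w i).natDegree ≤ p + c) ∧ ∀ k, cocyc M u w k = tr p c a k := by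
  classical
  have : Fintype (ker p a) := hfin.fintype
  refine ⟨ker p a, inferInstance, inferInstance, ?_, ?_⟩
  · rw [← Nat.card_eq_fintype_card]; rfl
  set M : Matrix (ker p a) (ker p a) (ZMod p)[X] := Matrix.of fun b b' =>
    ∑ r ∈ range p, if (fun n => b.1 (p * n + r)) = b'.1 then X^r else 0 with hM
  set w : ker p a → (ZMod p)[X] := fun b => ∑ n ∈ range c, C (b.1 n) * X^n with hw
  set u : ker p a → (ZMod p)[X] := fun b => if b.1 = a then 1 else 0 with hu
  refine ⟨M, u, w, ?_, ?_, ?_, ?_⟩
  · intro b b'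
    rw [hM, Matrix.of_apply]
    refine natDegree_sum_le_of_forall_le _ _ fun r hr => ?_
    split_ifs
    · rw [natDegree_X_pow]; have := Finset.mem_range.1 hr; omega
    · simp
  · intro b
    simp only [hu]
    split_ifs <;> simp
  · intro b
    simp only [hw]
    refine natDegree_sum_le_of_forall_le _ _ fun n hn => ?_
    refine (natDegree_C_mul_X_pow_le _ _).trans ?_
    have := Finset.mem_range.1 hn
    omega
  · have key : ∀ (k : ℕ) (b : ker p a),
        (prodM M k *ᵥ fun j => expand (ZMod p) (p^k) (w j)) b = tr p c b.1 k := by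
      intro k
      induction k with
      | zero =>
        intro b
        rw [prodM_zero, one_mulVec]
        simp [hw, tr]
      | succ k ih =>
        intro b
        rw [step, tr_succ]
        have h1 : ∀ b' : ker p a, M b b' * expand (ZMod p) p
            ((prodM M k *ᵥ fun j => expand (ZMod p) (p^k) (w j)) b') =
            ∑ r ∈ range p, if (fun n => b.1 (p * n + r)) = b'.1 then
              X^r * expand (ZMod p) p (tr p c b'.1 k) else 0 := by
          intro b'
          rw [ih b', hM, Matrix.of_apply, Finset.sum_mul]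
          refine Finset.sum_congr rfl fun r _ => ?_
          split_ifs <;> simp
        rw [Finset.sum_congr rfl (fun b' _ => h1 b'), Finset.sum_comm]
        refine Finset.sum_congr rfl fun r hr => ?_
        have hmem : (fun n => b.1 (p * n + r)) ∈ ker p a :=
          section_mem_ker a b.1 b.2 r (Finset.mem_range.1 hr)
        rw [Finset.sum_eq_single (⟨_, hmem⟩ : ker p a)]
        · simp
        · intro b' _ hne
          rw [if_neg]
          intro h
          apply hne
          exact Subtype.ext h.symm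
        · intro h; exact absurd (Finset.mem_univ _) h
    intro k
    unfold cocyc
    rw [dotProduct, Finset.sum_eq_single (⟨a, self_mem_ker a⟩ : ker p a)]
    · rw [key]
      simp [hu]
    · intro b _ hne
      have : b.1 ≠ a := fun h => hne (Subtype.ext h)
      simp [hu, this]
    · intro h; exact absurd (Finset.mem_univ _) h

theorem tr_coeff (c : ℕ) (a : ℕ → ZMod p) (k n : ℕ) :
    (tr p c a k).coeff n = if n < c * p^k then a n else 0 := by
  unfold tr
  rw [finsetSum_coeff]
  simp only [coeff_C_mul, coeff_X_pow]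
  simp only [mul_ite, mul_one, mul_zero, Finset.sum_ite_eq, Finset.mem_range]

/-- the sparse multiple of the truncations of sequences with small kernel -/
theorem sparse_tr (p : ℕ) [Fact p.Prime] (s C : ℕ) :
    ∃ N D : ℕ, ∀ c ≤ C, ∀ a : ℕ → ZMod p, (ker p a).Finite → (ker p a).ncard ≤ s →
      ∀ k : ℕ, tr p c a k ≠ 0 → ∃ T : (ZMod p)[X], T ≠ 0 ∧ tr p c a k ∣ T ∧ T.support.card ≤ N ∧
          T.natDegree ≤ D * p^k := by
  obtain ⟨N, D, h⟩ := sparse_multiple p s (p + C)
  refine ⟨N, D, ?_⟩
  intro c hcC a hfin hs k hk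
  obtain ⟨ι, i1, i2, hc, M, u, w, hM, hu, hw, he⟩ := tr_eq_cocyc c a hfin
  rw [← he k] at hk ⊢
  exact h ι (hc ▸ hs) M u w (fun i j => (hM i j).trans (by omega)) (fun i => (hu i).trans (by omega))
    (fun i => (hw i).trans (by omega)) k hk

end Pool.Agent.Helper36.Leh
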